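import Pool.Agent.Lib.MP_afdd4d_co.K9.P4.R10

/-!
# The automorphisms of type 10
-/

namespace Pool.Agent.Lib.MP_afdd4d_co.K9.P4

open K8 W6
open Pool.Agent.Lib.MP_afdd4d_co.K9.Star

set_option maxRecDepth 100000
set_option exponentiation.threshold 10000000

theorem au24 (D : C4D) (h : D.W = 40) : D.auG R10 0x2310 true = true := by
  unfold C4D.auG
  rw [h]
  decide +kernel

theorem au25 (D : C4D) (h : D.W = 40) : D.auG R10 0x3210 true = true := by
  unfold C4D.auG
  rw [h]
  decide +kernel

theorem au26 (D : C4D) (h : D.W = 40) : D.auG R10 0x3201 true = true := by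
  unfold C4D.auG
  rw [h]
  decide +kernel

end Pool.Agent.Lib.MP_afdd4d_co.K9.P4
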