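import Pool.Agent.Lib.MP_afdd4d_co.K9.P4.Row

/-!
# The checks of the representatives, part 15
-/

namespace Pool.Agent.Lib.MP_afdd4d_co.K9.P4

theorem ck60 : C.ck R D 60 = true := by decide +kernel

theorem ck61 : C.ck R D 61 = true := by decide +kernel

theorem ck62 : C.ck R D 62 = true := by decide +kernel

theorem ck63 : C.ck R D 63 = true := by decide +kernel

end Pool.Agent.Lib.MP_afdd4d_co.K9.P4
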