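import Pool.Agent.Lib.MP_afdd4d_co.K9.P4.Row

/-!
# The checks of the representatives, part 23
-/

namespace Pool.Agent.Lib.MP_afdd4d_co.K9.P4

theorem ck92 : C.ck R D 92 = true := by decide +kernel

theorem ck93 : C.ck R D 93 = true := by decide +kernel

theorem ck94 : C.ck R D 94 = true := by decide +kernel

theorem ck95 : C.ck R D 95 = true := by decide +kernel

end Pool.Agent.Lib.MP_afdd4d_co.K9.P4
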