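import Pool.Agent.Lib.MP_afdd4d_co.K9.P4.Row

/-!
# The checks of the representatives, part 27
-/

namespace Pool.Agent.Lib.MP_afdd4d_co.K9.P4

theorem ck108 : C.ck R D 108 = true := by decide +kernel

theorem ck109 : C.ck R D 109 = true := by decide +kernel

theorem ck110 : C.ck R D 110 = true := by decide +kernel

theorem ck111 : C.ck R D 111 = true := by decide +kernel

end Pool.Agent.Lib.MP_afdd4d_co.K9.P4
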