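import Pool.Agent.Lib.MP_afdd4d_co.K9.P4.Row

/-!
# The checks of the representatives, part 35
-/

namespace Pool.Agent.Lib.MP_afdd4d_co.K9.P4

theorem ck140 : C.ck R D 140 = true := by decide +kernel

theorem ck141 : C.ck R D 141 = true := by decide +kernel

theorem ck142 : C.ck R D 142 = true := by decide +kernel

theorem ck143 : C.ck R D 143 = true := by decide +kernel

end Pool.Agent.Lib.MP_afdd4d_co.K9.P4
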