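import Pool.Agent.Lib.MP_afdd4d_co.K9.P4.Row

/-!
# The checks of the representatives, part 37
-/

namespace Pool.Agent.Lib.MP_afdd4d_co.K9.P4

theorem ck148 : C.ck R D 148 = true := by decide +kernel

theorem ck149 : C.ck R D 149 = true := by decide +kernel

theorem ck150 : C.ck R D 150 = true := by decide +kernel

theorem ck151 : C.ck R D 151 = true := by decide +kernel

end Pool.Agent.Lib.MP_afdd4d_co.K9.P4
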