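import Pool.Agent.Lib.MP_afdd4d_co.K9.P4.Row

/-!
# The checks of the representatives, part 38
-/

namespace Pool.Agent.Lib.MP_afdd4d_co.K9.P4

theorem ck152 : C.ck R D 152 = true := by decide +kernel

theorem ck153 : C.ck R D 153 = true := by decide +kernel

theorem ck154 : C.ck R D 154 = true := by decide +kernel

theorem ck155 : C.ck R D 155 = true := by decide +kernel

end Pool.Agent.Lib.MP_afdd4d_co.K9.P4
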