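import Pool.Agent.Lib.MP_afdd4d_co.K9.W6Rc
import Pool.Agent.Lib.MP_afdd4d_co.K9.P4.K0
import Pool.Agent.Lib.MP_afdd4d_co.K9.P4.K1
import Pool.Agent.Lib.MP_afdd4d_co.K9.P4.K2
import Pool.Agent.Lib.MP_afdd4d_co.K9.P4.K3
import Pool.Agent.Lib.MP_afdd4d_co.K9.P4.K4
import Pool.Agent.Lib.MP_afdd4d_co.K9.P4.K5
import Pool.Agent.Lib.MP_afdd4d_co.K9.P4.K6
import Pool.Agent.Lib.MP_afdd4d_co.K9.P4.K7
import Pool.Agent.Lib.MP_afdd4d_co.K9.P4.K8
import Pool.Agent.Lib.MP_afdd4d_co.K9.P4.K9
import Pool.Agent.Lib.MP_afdd4d_co.K9.P4.K10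
import Pool.Agent.Lib.MP_afdd4d_co.K9.P4.K11
import Pool.Agent.Lib.MP_afdd4d_co.K9.P4.K12
import Pool.Agent.Lib.MP_afdd4d_co.K9.P4.K13
import Pool.Agent.Lib.MP_afdd4d_co.K9.P4.K14
import Pool.Agent.Lib.MP_afdd4d_co.K9.P4.K15
import Pool.Agent.Lib.MP_afdd4d_co.K9.P4.K16
import Pool.Agent.Lib.MP_afdd4d_co.K9.P4.K17
import Pool.Agent.Lib.MP_afdd4d_co.K9.P4.K18
import Pool.Agent.Lib.MP_afdd4d_co.K9.P4.K19
import Pool.Agent.Lib.MP_afdd4d_co.K9.P4.K20
import Pool.Agent.Lib.MP_afdd4d_co.K9.P4.K21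
import Pool.Agent.Lib.MP_afdd4d_co.K9.P4.K22
import Pool.Agent.Lib.MP_afdd4d_co.K9.P4.K23
import Pool.Agent.Lib.MP_afdd4d_co.K9.P4.K24
import Pool.Agent.Lib.MP_afdd4d_co.K9.P4.K25
import Pool.Agent.Lib.MP_afdd4d_co.K9.P4.K26
import Pool.Agent.Lib.MP_afdd4d_co.K9.P4.K27
import Pool.Agent.Lib.MP_afdd4d_co.K9.P4.K28
import Pool.Agent.Lib.MP_afdd4d_co.K9.P4.K29
import Pool.Agent.Lib.MP_afdd4d_co.K9.P4.K30
import Pool.Agent.Lib.MP_afdd4d_co.K9.P4.K31
import Pool.Agent.Lib.MP_afdd4d_co.K9.P4.K32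
import Pool.Agent.Lib.MP_afdd4d_co.K9.P4.K33
import Pool.Agent.Lib.MP_afdd4d_co.K9.P4.K34
import Pool.Agent.Lib.MP_afdd4d_co.K9.P4.K35
import Pool.Agent.Lib.MP_afdd4d_co.K9.P4.K36
import Pool.Agent.Lib.MP_afdd4d_co.K9.P4.K37
import Pool.Agent.Lib.MP_afdd4d_co.K9.P4.K38
import Pool.Agent.Lib.MP_afdd4d_co.K9.P4.K39

/-!
# The checks of all representatives
-/

namespace Pool.Agent.Lib.MP_afdd4d_co.K9.P4

theorem cks : ∀ k < 160, C.ck R D k = true := by
  intro k hk
  interval_cases k
  · exact ck0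
  · exact ck1
  · exact ck2
  · exact ck3
  · exact ck4
  · exact ck5
  · exact ck6
  · exact ck7
  · exact ck8
  · exact ck9
  · exact ck10
  · exact ck11
  · exact ck12
  · exact ck13
  · exact ck14
  · exact ck15
  · exact ck16
  · exact ck17
  · exact ck18
  · exact ck19
  · exact ck20
  · exact ck21
  · exact ck22
  · exact ck23
  · exact ck24
  · exact ck25
  · exact ck26
  · exact ck27
  · exact ck28
  · exact ck29
  · exact ck30
  · exact ck31
  · exact ck32
  · exact ck33
  · exact ck34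
  · exact ck35
  · exact ck36
  · exact ck37
  · exact ck38
  · exact ck39
  · exact ck40
  · exact ck41
  · exact ck42
  · exact ck43
  · exact ck44
  · exact ck45
  · exact ck46
  · exact ck47
  · exact ck48
  · exact ck49
  · exact ck50
  · exact ck51
  · exact ck52
  · exact ck53
  · exact ck54
  · exact ck55
  · exact ck56
  · exact ck57
  · exact ck58
  · exact ck59
  · exact ck60
  · exact ck61
  · exact ck62
  · exact ck63
  · exact ck64
  · exact ck65
  · exact ck66
  · exact ck67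
  · exact ck68
  · exact ck69
  · exact ck70
  · exact ck71
  · exact ck72
  · exact ck73
  · exact ck74
  · exact ck75
  · exact ck76
  · exact ck77
  · exact ck78
  · exact ck79
  · exact ck80
  · exact ck81
  · exact ck82
  · exact ck83
  · exact ck84
  · exact ck85
  · exact ck86
  · exact ck87
  · exact ck88
  · exact ck89
  · exact ck90
  · exact ck91
  · exact ck92
  · exact ck93
  · exact ck94
  · exact ck95
  · exact ck96
  · exact ck97
  · exact ck98
  · exact ck99
  · exact ck100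
  · exact ck101
  · exact ck102
  · exact ck103
  · exact ck104
  · exact ck105
  · exact ck106
  · exact ck107
  · exact ck108
  · exact ck109
  · exact ck110
  · exact ck111
  · exact ck112
  · exact ck113
  · exact ck114
  · exact ck115
  · exact ck116
  · exact ck117
  · exact ck118
  · exact ck119
  · exact ck120
  · exact ck121
  · exact ck122
  · exact ck123
  · exact ck124
  · exact ck125
  · exact ck126
  · exact ck127
  · exact ck128
  · exact ck129
  · exact ck130
  · exact ck131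
  · exact ck132
  · exact ck133
  · exact ck134
  · exact ck135
  · exact ck136
  · exact ck137
  · exact ck138
  · exact ck139
  · exact ck140
  · exact ck141
  · exact ck142
  · exact ck143
  · exact ck144
  · exact ck145
  · exact ck146
  · exact ck147
  · exact ck148
  · exact ck149
  · exact ck150
  · exact ck151
  · exact ck152
  · exact ck153
  · exact ck154
  · exact ck155
  · exact ck156
  · exact ck157
  · exact ck158
  · exact ck159

end Pool.Agent.Lib.MP_afdd4d_co.K9.P4
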