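import Pool.Agent.Lib.MP_afdd4d_co.K9.P4.Ok

/-!
# The kernel without roots
-/

namespace Pool.Agent.Lib.MP_afdd4d_co.K9.P4

open K8 W6
open Pool.Agent.Lib.MP_afdd4d_co.K9.Star

set_option maxRecDepth 100000
set_option exponentiation.threshold 10000000

/-- The rows. -/
noncomputable def N3b : List ℕ := [
    0x20000000001f12a9000020f94e00001f060b800020ef4a8,
    0x200000000020f94e00001ef85b00002107dc80001f060b8,
    0x20000000001f060b80002107dc80001ef85b000020f94e0,
    0x200000000020ef4a80001f060b800020f94e00001f12a90]

/-- The data of the kernels with two roots, with one root and without roots. -/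
noncomputable def Bb : B2 := ⟨40, 33554432, [N0, N1, N2], N3b⟩

theorem rwBb : Bb.rwG 25 = true := by decide +kernel

/-- The factorisation. -/
noncomputable def FN3b : PD where
  Dn := 3377699720527872
  t := FN3.t
  k := FN3.k
  ws := FN3.ws
  ind := FN3.ind
  nul := FN3.nul

theorem pdN3b : FN3b.chk 40 33554432 2 N3b = true := by decide +kernel

/-- The factorisations of the small matrices. -/
noncomputable def PNb (τ : ℕ) : PD := match τ with
  | 0 => FN0
  | 1 => FN1
  | 2 => FN2
  | _ => FN3b

theorem bOKb : Bb.OK := by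
  refine B2.ok_of (a := 25) PNb rwBb (fun τ hτ => ?_) pdN3b
  interval_cases τ
  · exact pdN0
  · exact pdN1
  · exact pdN2

theorem ct2b : t2C 40 Bb T2 = true := by decide +kernel

theorem rOKb : R.OK D Bb 50331648 34 := by
  refine ok_of dOK bOKb rfl (by decide) (fun τ h0 h1 => ?_) ct2b cf5 cu5 (by decide +kernel) ?_
    (by decide)
  · have h2 : τ < 13 := h1
    interval_cases τ
    · exact bk1
    · exact bk2
    · exact bk3
    · exact bk4
    · exact bk5
    · exact bk6
    · exact bk7
    · exact bk8
    · exact bk9
    · exact bk10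
    · exact bk11
    · exact bk12
  · show 15 * (2 * 67108864) + 45 * (2 * 33554432) + 6 * 50331648 + 2 ^ 34 < 2 ^ (40 - 1)
    norm_num

end Pool.Agent.Lib.MP_afdd4d_co.K9.P4
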