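import Pool.Agent.Lib.MP_afdd4d_co.K9.P4.Row
import Pool.Agent.Lib.MP_afdd4d_co.K9.P4.Nb
import Pool.Agent.Lib.MP_afdd4d_co.K9.P4.Cks
import Pool.Agent.Lib.MP_afdd4d_co.K9.W6Rc2
import Pool.Agent.Lib.MP_afdd4d_co.K9.W6G2

/-!
# 4-graphs near a reference structure for each pair of vertices

The inequality on the windows.
-/

namespace Pool.Agent.Lib.MP_afdd4d_co.K9.P4

open Finset K8 W6
open Pool.Agent.Lib.MP_afdd4d_co.K9.Star
open Pool.Agent.Lib.MP_afdd4d_co.K9.Star.Tw

/-! ### The conditions on the data -/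

theorem l0_ok : L0.OK 40 0 where
  hP := pt6_ok
  hE := fun _ h => by cases h
  hK := fun _ h => by cases h
  hM := fun _ h => by cases h
  eE := by decide +kernel
  hu := Ug.ckU_spec (by decide) (by decide) (by decide +kernel)
  eK := by decide +kernel
  sz := by decide +kernel

theorem tot0 {n : ℕ} (H E : Finset (Finset (Fin n))) (χ : Fin n → Bool) (t : Fin 6 → Fin n) :
    L0.tot 40 H E χ t = 0 := by
  unfold LD.tot
  show (([] : List Mk).map _).sum + ((([] : List Mk).map _).sum + (([] : List Mk).map _).sum) -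
    (Ug.uv 40 0 H t : ℤ) = 0
  unfold Ug.uv
  rw [Ln_zero_left]
  rfl

theorem vX_eq (k : ℕ) (hk : k < 160) : nthG [] C.vX k = (rX k).map fun _ => 0 := by
  have h : k < (((List.range 160).map fun k => (rX k).map fun _ => 0) : List (List ℕ)).length := by
    rw [List.length_map, List.length_range]
    exact hk
  show nthG [] ((List.range 160).map fun k => (rX k).map fun _ => 0) k = _
  rw [nthG_at [] _ k h, List.getElem_map, List.getElem_range]

/-! ### The terms -/

/-- The function of the five-sets. -/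
def wf (h _ : ℕ) : ℤ := 212336640 * h - (if h = 5 then 1391468544 else 0)

theorem hA : ∀ b < 7, 24 * (15 * (67108864 : ℤ) + 45 * 33554432 + 720 * (L0.ofs : ℕ) +
    (tlO b [eS5, eS4, eJ4] : ℕ)) + 6 * 849346560 + 72 * k3 Bb b + 0 - 0 ≤
      4379443200 + (nthG 0 C.A b : ℕ) := by
  decide +kernel

theorem hsz : ∀ b < 7, 2 ^ 0 + (2 ^ 33 + 0 + tlU b [eS5, eS4, eJ4]) ≤ 2 ^ 34 := by
  decide +kernel

theorem hu : ∀ h < 6, ∀ e < 6, 24 * (R.u5 h e : ℤ) + wf h e ≤ 849346560 := by decide +kernel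

theorem mlC : ∀ b < 7, ∀ e ∈ nthG [] C.mL b, okR e.2 1 = true ∧ ndG e.2 1 = 10 ∧
      syG e.2 1 0 = e.1 := gml_ok

theorem okT : ∀ L ∈ ([eS5, eS4, eJ4] : List W6.LT), L.OK 40 pt6 := by
  intro L hL
  simp only [List.mem_cons, List.not_mem_nil, or_false] at hL
  rcases hL with rfl | rfl | rfl
  · exact eS5_ok
  · exact eS4_ok
  · exact eJ4_ok

/-- The inequality on the windows. -/
theorem rows_T (n : ℕ) (H E : Finset (Finset (Fin n))) (χ : Fin n → Bool) (hE : EvenH n E)
    (hC : ExG n E χ) (t : Fin 6 → Fin n) (ht : Function.Injective t) :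
    KS D Bb H E χ t + 24 * (symE (eS5.f 40) H E χ t + symE (eS4.f 40) H E χ t +
      symE (eJ4.f 40) H E χ t) +
      ∑ q ∈ range 6, wf (cnt H t q) (cnt E t q) ≤ 4379443200 := by
  have h := RC.rows6 C D Bb R 50331648 34 0 0 dOK invOK bOKb rOKb l0_ok (by decide) (by decide)
    okT hsz (fun n _ E χ => ExG n E χ)
    (fun _ _ => 0) (fun b _ => ar_zero 10) (fun _ _ _ => le_rfl)
    (fun _ _ _ _ => 0) (fun _ _ _ _ _ => rfl) (fun _ => 0)
    (fun b _ n H E χ _ _ t _ _ => by norm_num)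
    (fun _ _ _ _ => 0) (fun _ _ _ _ _ => rfl) 0
    (fun k hk p hp n H E χ _ _ t _ _ _ => by
      rw [vX_eq k hk] at hp
      have h1 := zip_map_mem (fun _ => 0) _ p hp
      rw [h1]
      norm_num)
    mlC
    (fun b hb n _ E χ hE hC t ht hx => gmask b hb E χ hE hC t ht hx)
    wf 849346560 4379443200 hu hA cks n H E χ hE hC t ht
  have e0 : C.L.tot R.W H E χ t = 0 := tot0 H E χ t
  have e1 : tlS R.W C.T H E χ t = symE (eS5.f 40) H E χ t + symE (eS4.f 40) H E χ t +
      symE (eJ4.f 40) H E χ t := by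
    show symE (eS5.f 40) H E χ t + (symE (eS4.f 40) H E χ t + (symE (eJ4.f 40) H E χ t + 0)) = _
    ring
  rw [e0, e1] at h
  linarith

end Pool.Agent.Lib.MP_afdd4d_co.K9.P4
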