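import Pool.Agent.Lib.MP_afdd4d_co.K9.P4.Row

/-!
# The checks of the representatives, part 21
-/

namespace Pool.Agent.Lib.MP_afdd4d_co.K9.P4

theorem ck84 : C.ck R D 84 = true := by decide +kernel

theorem ck85 : C.ck R D 85 = true := by decide +kernel

theorem ck86 : C.ck R D 86 = true := by decide +kernel

theorem ck87 : C.ck R D 87 = true := by decide +kernel

end Pool.Agent.Lib.MP_afdd4d_co.K9.P4
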