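import Pool.Agent.Lib.MP_afdd4d_co.K9.P4.Row

/-!
# The checks of the representatives, part 32
-/

namespace Pool.Agent.Lib.MP_afdd4d_co.K9.P4

theorem ck128 : C.ck R D 128 = true := by decide +kernel

theorem ck129 : C.ck R D 129 = true := by decide +kernel

theorem ck130 : C.ck R D 130 = true := by decide +kernel

theorem ck131 : C.ck R D 131 = true := by decide +kernel

end Pool.Agent.Lib.MP_afdd4d_co.K9.P4
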