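import Pool.Agent.Lib.MP_afdd4d_co.K9.P4.Fin
import Pool.Agent.Lib.MP_afdd4d_co.K9.P4.Gd
import Pool.Agent.Lib.MP_afdd4d_co.K9.TwP

/-!
# 4-graphs near a reference structure for each pair of vertices

The theorem, for arbitrary 4-graphs, with a penalty for the copies of `K_5`.
-/

namespace Pool.Agent.Lib.MP_afdd4d_co.K9.P4

open Finset K8 W6
open Pool.Agent.Lib.MP_afdd4d_co.K9.Star
open Pool.Agent.Lib.MP_afdd4d_co.K9.Star.Tw

/-- The parameters. -/
def a4 : PS := ⟨1, 20, 1, 100⟩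

theorem wsum {n : ℕ} (H E : Finset (Finset (Fin n))) (t : Fin 6 → Fin n) :
    ∑ q ∈ range 6, wf (cnt H t q) (cnt E t q) =
      424673280 * S4 (zb H t) - 1391468544 * (O5 (zb H t) 5 : ℕ) := by
  have h1 := sum_cnt H t
  have e : ∀ q : ℕ, (if cnt H t q = 5 then (1391468544 : ℤ) else 0) =
      1391468544 * (if cnt H t q = 5 then 1 else 0) := by
    intro q
    split_ifs <;> norm_num
  rw [O5_cnt]
  unfold wf
  rw [Finset.sum_sub_distrib, ← Finset.mul_sum, h1, Finset.sum_congr rfl fun q _ => e q,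
    ← Finset.mul_sum]
  ring

/-- The terms. -/
noncomputable def Zf : Fn3 := fun H E χ t =>
  KS D Bb H E χ t + 24 * (symE (eS5.f 40) H E χ t + symE (eS4.f 40) H E χ t +
      symE (eJ4.f 40) H E χ t)

theorem hss (μ : MuX 4) (j : Fin (4 + 2) → Fin 6) (hj : Function.Injective j) :
    GV (CtSX a4) P00 (ssV 1 (-10000) μ j) := by
  have h := gvS_ss (a := a4) (P := P00) μ j hj
  have e1 : ((a4.sn : ℕ) : ℤ) ^ 2 = 1 := by norm_num [a4]
  have e2 : -((a4.sd : ℕ) : ℤ) ^ 2 = -10000 := by norm_num [a4]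
  rw [e1, e2] at h
  exact h

/-- The terms have almost nonnegative averages. -/
theorem good_Z : GoodP (CtSX a4) (fun H E χ t => Zf H E χ t) := by
  have h1 : GoodP (CtSX a4) (fun H E χ t => KS D Bb H E χ t) := goodP_KS D Bb dOK bOKb
  have h2 : GoodP (CtSX a4) (fun H E χ t => symE (eS5.f 40) H E χ t) :=
    GoodP.sym (gv_col_s eS5 40 mS mT (fun σ hσ μ j hj => gvS_s (a := a4) σ hσ μ j hj) ckS)
  have h3 : GoodP (CtSX a4) (fun H E χ t => symE (eS4.f 40) H E χ t) :=
    GoodP.sym (gv_col_ss eS4 40 mQ mR (fun μ j hj => hss μ j hj)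
      (fun μ j hj => gvS_sq (a := a4) μ j hj) ckQ)
  have h4 : GoodP (CtSX a4) (fun H E χ t => symE (eJ4.f 40) H E χ t) :=
    GoodP.sym (gv_col_pj eJ4 40 mJ (fun μ j hj => gvS_pair (a := a4) μ j hj) onJ ckJ)
  exact h1.add (((h2.add h3).add h4).smul 24)

/-- The theorem: an arbitrary 4-graph such that each pair of vertices of different colours is in
few of the quadruples with two vertices of each colour in which it differs from a reference
structure with almost balanced colours has density at most `11 / 16`, up to a multiple of the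
number of its copies of `K_5`. -/
theorem main : ∀ ε : ℝ, 0 < ε → ∃ N0 : ℕ, ∀ n : ℕ, N0 ≤ n →
      ∀ (H : Finset (Finset (Fin n))) (χ : Fin n → Bool) (M : Fin n → Fin n → Bool),
      (∀ e ∈ H, e.card = 4) →
      (∀ x y : Fin n, χ x = false → χ y = true →
        20 * ((symmDiff H (gir χ M (fun _ => false) (fun _ => false))).filter fun Q =>
          x ∈ Q ∧ y ∈ Q ∧ (Q.filter fun v => χ v = true).card = 2).card ≤
          1 * ((univ.filter fun v => χ v = false).card *
            (univ.filter fun v => χ v = true).card)) →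
      ((100 : ℕ) : ℤ) * |∑ v : Fin n, Star.sg (χ v)| ≤ ((1 : ℕ) : ℤ) * n →
      (n : ℝ) * (H.card : ℝ) ≤ n * (((11 / 16 : ℝ) + ε) * ((n.choose 4 : ℕ) : ℝ)) +
        14 * (T5 H 5 : ℝ) := by
  intro ε hε
  obtain ⟨N0, hN0⟩ := t4Z a4 26542080 1391468544 (by norm_num) Zf good_Z
    (fun {n} H E χ hc t ht => by
      have hC : ExG n E χ := by
        obtain ⟨M, rfl⟩ := hc.g
        exact exG_gir χ M
      have h5 := rows_T n H E χ hc.e4'.2 hC t ht
      rw [wsum] at h5
      unfold Zf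
      push_cast at h5 ⊢
      linarith) ε hε
  refine ⟨N0, fun n hn H χ M hH hj hs => ?_⟩
  have h1 := hN0 n hn H χ M hH hj hs
  have h2 : (0 : ℝ) ≤ (T5 H 5 : ℝ) := Nat.cast_nonneg _
  have h3 : ((1391468544 : ℕ) : ℝ) / (4 * ((26542080 : ℕ) : ℝ)) ≤ 14 := by norm_num
  have h4 := mul_le_mul_of_nonneg_right h3 h2
  linarith

end Pool.Agent.Lib.MP_afdd4d_co.K9.P4
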